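import Pool.Agent.Y812.QTN11
import Pool.Agent.Y812.TM.Four

/-!
# The newforms of the quadratic twists of `X_0(11)` and `X_0(14)`, with their coefficients at the bad primes

Helper88. The proof of `isForm_twist` is that of `Pool.Agent.Y812.TM.isForm_twist` (helper812), with the coefficients at
the primes that divide the level added.
-/

set_option autoImplicit false

open UpperHalfPlane MatrixGroups CongruenceSubgroup Filter Topology
open scoped ModularForm Pointwise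

namespace Pool.Agent.K6.H88.MD

open Pool.Agent.Y812.TM (AL twForm twForm_apply coeff_twForm exists_char TS_three real_val AL14 isForm14)
open Pool.Agent.W97.TW (tau TS A tau_ne_zero f11)
open Pool.Agent.Y19.QT
open Pool.Agent.H306R2.RZ (js)

/-- The coefficients at the primes that divide the level are `0`, `1` or `-1`. -/
def Bad {N : ℕ} (f : CuspForm (Gamma0 N : Subgroup (GL (Fin 2) ℝ)) 2) : Prop :=
  ∀ p : ℕ, p.Prime → p ∣ N → coef f p = 0 ∨ coef f p = 1 ∨ coef f p = -1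

/-- The twist of the form of a curve is the form of the twist of the curve, with the coefficients at the primes that
divide the level. -/
theorem isForm_twist {a b : ℤ} {N : ℕ} {f : CuspForm (Gamma0 N : Subgroup (GL (Fin 2) ℝ)) 2}
    (hf : IsFormOf a b N f) (hb : Bad f) (hN : Squarefree N)
    (hAL : ∀ M R : ℕ, M * R = N → ∃ ε : ℝ, (ε = 1 ∨ ε = -1) ∧ AL f M R ε) (g : ℤ) (hg : g ≠ 0) :
    ∃ (N' : ℕ) (f' : CuspForm (Gamma0 N' : Subgroup (GL (Fin 2) ℝ)) 2),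
      IsFormOf (a * g ^ 2) (b * g ^ 3) N' f' ∧ Bad f' := by
  obtain ⟨m, ψ, hm0, hψ, hsq, hmg, hval⟩ := exists_char g hg
  have hNpos := hf.pos
  have : NeZero N := ⟨hNpos.ne'⟩
  have : NeZero m := ⟨hm0.ne'⟩
  set R : ℕ := Nat.gcd N m with hR
  have hRN : R ∣ N := Nat.gcd_dvd_left N m
  have hRm : R ∣ m := Nat.gcd_dvd_right N m
  obtain ⟨M, hM⟩ := hRN
  have hMR : M * R = N := by rw [hM]; ring
  have hM0 : 0 < M := Nat.pos_of_ne_zero (by rintro rfl; simp at hMR; omega)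
  have hcop : Nat.Coprime M m := by
    refine Nat.coprime_of_dvd fun p hp h1 h2 => ?_
    have h3 : p ∣ R := Nat.dvd_gcd (hMR ▸ h1.mul_right R) h2
    have h4 : p * p ∣ N := by rw [← hMR]; exact mul_dvd_mul h1 h3
    exact hp.not_isUnit (hN p h4)
  have hNM : N ∣ M * m := by rw [← hMR]; exact mul_dvd_mul_left M hRm
  have hN'0 : 0 < M * m ^ 2 := by positivity
  have : NeZero (M * m ^ 2) := ⟨hN'0.ne'⟩
  obtain ⟨ε, hε, hALε⟩ := hAL M R hMR
  have hc : ∀ n : ℕ, coef (twForm f ψ hNM hsq) n = coef f n * ψ n := fun n =>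
    coeff_twForm f ψ hNM hsq hψ n
  have hun : ∀ n : ℕ, IsUnit ((n : ℕ) : ZMod m) ∨ ψ (n : ZMod m) = 0 := by
    intro n
    by_cases h : IsUnit ((n : ℕ) : ZMod m)
    · exact Or.inl h
    · exact Or.inr (MulChar.map_nonunit ψ h)
  have hnorm : ∀ n : ℕ, ‖ψ (n : ZMod m)‖ ≤ 1 := by
    intro n
    rcases hun n with h | h
    · rcases real_val ψ hsq h with h | h <;> rw [h] <;> simp
    · rw [h]; simp
  have him : ∀ n : ℕ, (ψ (n : ZMod m)).im = 0 := by
    intro n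
    rcases hun n with h | h
    · rcases real_val ψ hsq h with h | h <;> rw [h] <;> simp
    · rw [h]; simp
  have hpm : ∀ p : ℕ, p.Prime → p ∣ m → ψ (p : ZMod m) = 0 := by
    intro p hp h
    apply MulChar.map_nonunit
    rw [ZMod.isUnit_iff_coprime]
    intro h1
    have := Nat.dvd_gcd dvd_rfl h
    rw [h1] at this
    exact hp.one_lt.ne' (Nat.dvd_one.1 this)
  have hpu : ∀ p : ℕ, p.Prime → ¬ p ∣ m → IsUnit ((p : ℕ) : ZMod m) := by
    intro p hp h
    rw [ZMod.isUnit_iff_coprime]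
    exact (hp.coprime_iff_not_dvd).2 h
  have hdvd : ∀ p : ℕ, p.Prime → ¬ p ∣ m → (p ∣ M * m ^ 2 ↔ p ∣ N) := by
    intro p hp h
    have h1 : ¬ p ∣ m ^ 2 := fun h' => h (hp.dvd_of_dvd_pow h')
    have h2 : ¬ p ∣ R := fun h' => h (h'.trans hRm)
    rw [← hMR, hp.dvd_mul, hp.dvd_mul]
    tauto
  have hdvdm : ∀ p : ℕ, p ∣ m → p ∣ M * m ^ 2 := fun p h =>
    (h.trans (dvd_pow_self m two_ne_zero)).mul_left M
  refine ⟨M * m ^ 2, twForm f ψ hNM hsq, ⟨hN'0, ?_, ?_, ?_, ?_, ?_, ?_, ?_, ?_⟩, ?_⟩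
  · -- one
    rw [hc, hf.one, Nat.cast_one, map_one, mul_one]
  · -- real
    intro n
    rw [hc, Complex.mul_im, him, hf.real n]
    ring
  · -- mul
    intro x y hxy
    rw [hc, hc, hc, hf.mul x y hxy, Nat.cast_mul, map_mul]
    ring
  · -- pow
    intro p j hp
    simp only [hc]
    by_cases h : p ∣ m
    · rw [if_pos (hdvdm p h)]
      have h0 := hpm p hp h
      rw [Nat.cast_pow, map_pow, h0]
      simp
    · have h1 : ψ ((p : ℕ) : ZMod m) ^ 2 = 1 := by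
        rcases real_val ψ hsq (hpu p hp h) with h | h <;> rw [h] <;> norm_num
      rw [hf.pow p j hp]
      simp only [Nat.cast_pow, map_pow]
      by_cases h2 : p ∣ N
      · rw [if_pos h2, if_pos ((hdvd p hp h).2 h2)]
        ring
      · rw [if_neg h2, if_neg (fun h' => h2 ((hdvd p hp h).1 h'))]
        linear_combination (-(p * coef f (p ^ j) * ψ ((p : ℕ) : ZMod m) ^ j)) * h1
  · -- good
    intro p hp hpN'
    have h : ¬ p ∣ m := fun h => hpN' (hdvdm p h)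
    have h2 : ¬ p ∣ N := fun h' => hpN' ((hdvd p hp h).2 h')
    rw [hc, norm_mul]
    have h3 := hf.good p hp h2
    calc ‖coef f p‖ * ‖ψ ((p : ℕ) : ZMod m)‖ ≤ ‖coef f p‖ * 1 :=
          mul_le_mul_of_nonneg_left (hnorm p) (norm_nonneg _)
      _ ≤ _ := by rw [mul_one]; exact h3
  · -- bad
    intro p hp hpN'
    rw [hc, norm_mul]
    by_cases h : p ∣ m
    · rw [hpm p hp h]; simp
    · have h3 := hf.bad p hp ((hdvd p hp h).1 hpN')
      calc ‖coef f p‖ * ‖ψ ((p : ℕ) : ZMod m)‖ ≤ ‖coef f p‖ * 1 :=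
            mul_le_mul_of_nonneg_left (hnorm p) (norm_nonneg _)
        _ ≤ _ := by rw [mul_one]; exact h3
  · -- fricke
    have hMu : IsUnit (-((M : ℕ) : ZMod m)) := ((ZMod.isUnit_iff_coprime _ _).2 hcop).neg
    have key : ∀ τ τ' : ℍ, (τ' : ℂ) * (((M * m ^ 2 : ℕ) : ℂ) * (τ : ℂ)) = -1 →
        twForm f ψ hNM hsq τ' = ψ (-((M : ℕ) : ZMod m)) * (ε * M * ((m : ℂ) * τ) ^ 2) *
          twForm f ψ hNM hsq τ := by
      intro τ τ' hτ
      have hτ0 : (τ : ℂ) ≠ 0 := τ.ne_zero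
      have hMC : (M : ℂ) ≠ 0 := by exact_mod_cast hM0.ne'
      have hmC : (m : ℂ) ≠ 0 := by exact_mod_cast hm0.ne'
      have e1 : (τ' : ℂ) = -1 / ((M : ℂ) * (m : ℂ) ^ 2 * τ) := by
        rw [eq_div_iff (by positivity)]
        push_cast at hτ
        exact hτ
      rw [twForm_apply, twForm_apply, e1, TS_three f hALε hM0 hRm hcop ψ hsq τ.im_pos]
      ring
    rcases real_val ψ hsq hMu with h1 | h1 <;> rcases hε with h2 | h2
    · refine ⟨-1, Or.inr rfl, fun τ τ' hτ => ?_⟩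
      rw [key τ τ' hτ, h1, h2]
      push_cast
      ring
    · refine ⟨1, Or.inl rfl, fun τ τ' hτ => ?_⟩
      rw [key τ τ' hτ, h1, h2]
      push_cast
      ring
    · refine ⟨1, Or.inl rfl, fun τ τ' hτ => ?_⟩
      rw [key τ τ' hτ, h1, h2]
      push_cast
      ring
    · refine ⟨-1, Or.inr rfl, fun τ τ' hτ => ?_⟩
      rw [key τ τ' hτ, h1, h2]
      push_cast
      ring
  · -- points
    intro p hp hpd
    have e : 2 * (4 * (a * g ^ 2) ^ 3 + 27 * (b * g ^ 3) ^ 2) =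
        (2 * (4 * a ^ 3 + 27 * b ^ 2)) * g ^ 6 := by ring
    have hpg : ¬ (p : ℤ) ∣ g := by
      intro h
      apply hpd
      rw [e]
      exact (h.trans (dvd_pow_self g (by norm_num))).mul_left _
    have hpD : ¬ (p : ℤ) ∣ 2 * (4 * a ^ 3 + 27 * b ^ 2) := by
      intro h
      apply hpd
      rw [e]
      exact h.mul_right _
    have hp2 : p ≠ 2 := by
      rintro rfl
      exact hpD (dvd_mul_right _ _)
    have hpi : Prime (p : ℤ) := Nat.prime_iff_prime_int.1 hp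
    have hp2g : ¬ (p : ℤ) ∣ 2 * g := by
      intro h
      rcases hpi.dvd_or_dvd h with h | h
      · have : p ∣ 2 := by exact_mod_cast h
        exact hp2 ((Nat.prime_dvd_prime_iff_eq hp Nat.prime_two).1 this)
      · exact hpg h
    have hpm' : ¬ p ∣ m := by
      intro h
      have h1 : p ∣ 4 * g.natAbs := h.trans hmg
      apply hp2g
      rw [Int.natCast_dvd, Int.natAbs_mul]
      have h4 : p ∣ 2 * (2 * g.natAbs) := by rwa [← mul_assoc]
      rcases (Nat.Prime.dvd_mul hp).1 h4 with h1 | h1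
      · exact Dvd.dvd.mul_right h1 _
      · exact h1
    obtain ⟨h1, h2⟩ := hf.points p hp hpD
    refine ⟨fun h => h1 ((hdvd p hp hpm').1 h), ?_⟩
    rw [hc, h2, hval p hp hp2g]
    have h3 := Pool.Agent.Y705.QT.ap_twist a b g p hp hp2 hpg
    have h4 : ((ap (a * g ^ 2) (b * g ^ 3) p : ℤ) : ℝ) = ((jacobiSym g p : ℤ) : ℝ) * (ap a b p : ℝ) := h3
    have h5 : (ap (a * g ^ 2) (b * g ^ 3) p : ℤ) = jacobiSym g p * ap a b p := by exact_mod_cast h4
    rw [h5]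
    push_cast
    ring
  · -- the primes that divide the level
    intro p hp hpN'
    rw [hc]
    by_cases h : p ∣ m
    · rw [hpm p hp h]
      simp
    · have h3 := hb p hp ((hdvd p hp h).1 hpN')
      rcases real_val ψ hsq (hpu p hp h) with h4 | h4 <;> rcases h3 with h3 | h3 | h3 <;> rw [h4, h3] <;> simp


theorem bad_of_int {N : ℕ} {f : CuspForm (Gamma0 N : Subgroup (GL (Fin 2) ℝ)) 2}
    (hint : ∀ n : ℕ, ∃ c : ℤ, coef f n = (c : ℂ))
    (hb : ∀ p : ℕ, p.Prime → p ∣ N → ‖coef f p‖ ≤ 1) : Bad f := by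
  intro p hp hpN
  obtain ⟨c, hc⟩ := hint p
  have h1 := hb p hp hpN
  rw [hc, Complex.norm_intCast] at h1
  have h2 : |c| ≤ 1 := by exact_mod_cast h1
  obtain ⟨h3, h4⟩ := abs_le.1 h2
  rw [hc]
  interval_cases c
  · right; right; norm_num
  · left; norm_num
  · right; left; norm_num

theorem bad11 : Bad f11 :=
  bad_of_int (fun n => Pool.Agent.Y702.M.coeff_int n) Pool.Agent.Y812.QTN11.isForm11.bad

theorem bad14 : Bad Pool.Agent.W97.MT.form14 :=
  bad_of_int (fun n => TH940.Inst.facts.1 n) isForm14.bad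

/-- The quadratic twists of `X₀(11) : y² = x³ - 13392 x - 1080432` and of `X₀(14) : y² = x³ + 5805 x - 285714`. -/
def Fam (a b : ℤ) : Prop := ∃ h : ℤ, h ≠ 0 ∧
    ((a = -13392 * h ^ 2 ∧ b = -1080432 * h ^ 3) ∨ (a = 5805 * h ^ 2 ∧ b = -285714 * h ^ 3))

theorem Fam.disc {a b : ℤ} (h : Fam a b) : 4 * a ^ 3 + 27 * b ^ 2 ≠ 0 := by
  obtain ⟨g, hg, ⟨rfl, rfl⟩ | ⟨rfl, rfl⟩⟩ := h
  · have : 4 * (-13392 * g ^ 2) ^ 3 + 27 * (-1080432 * g ^ 3) ^ 2 =
      (4 * (-13392) ^ 3 + 27 * (-1080432) ^ 2) * g ^ 6 := by ring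
    rw [this]; exact mul_ne_zero (by norm_num) (pow_ne_zero _ hg)
  · have : 4 * (5805 * g ^ 2) ^ 3 + 27 * (-285714 * g ^ 3) ^ 2 =
      (4 * 5805 ^ 3 + 27 * (-285714) ^ 2) * g ^ 6 := by ring
    rw [this]; exact mul_ne_zero (by norm_num) (pow_ne_zero _ hg)

theorem forms {a b : ℤ} (h : Fam a b) :
    ∃ (N : ℕ) (f : CuspForm (Gamma0 N : Subgroup (GL (Fin 2) ℝ)) 2), IsFormOf a b N f ∧ Bad f := by
  obtain ⟨g, hg, ⟨rfl, rfl⟩ | ⟨rfl, rfl⟩⟩ := h
  · exact isForm_twist Pool.Agent.Y812.QTN11.isForm11 bad11 (show Nat.Prime 11 by norm_num).squarefree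
      Pool.Agent.Y812.QTN11.AL11 g hg
  · exact isForm_twist isForm14 bad14 (by
      rw [show (14 : ℕ) = 2 * 7 by norm_num]
      exact (Nat.squarefree_mul (by norm_num)).2 ⟨Nat.prime_two.squarefree,
        (show Nat.Prime 7 by norm_num).squarefree⟩) AL14 g hg

theorem ap_eq (a b : ℤ) {p : ℕ} (hp : p.Prime) :
    (p : ℤ) - (((Finset.range p ×ˢ Finset.range p).filter
      (fun xy : ℕ × ℕ => (p : ℤ) ∣ (xy.2 : ℤ) ^ 2 -
        ((xy.1 : ℤ) ^ 3 + a * (xy.1 : ℤ) + b))).card : ℤ) = ap a b p := by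
  have : Fact p.Prime := ⟨hp⟩
  unfold ap
  congr 2
  rw [Nat.card_eq_fintype_card, Fintype.card_subtype]
  have key : ∀ x y : ℕ, ((p : ℤ) ∣ (y : ℤ) ^ 2 - ((x : ℤ) ^ 3 + a * (x : ℤ) + b)) ↔
      (y : ZMod p) ^ 2 = (x : ZMod p) ^ 3 + (a : ZMod p) * (x : ZMod p) + (b : ZMod p) := by
    intro x y
    rw [← ZMod.intCast_zmod_eq_zero_iff_dvd, ← sub_eq_zero (a := (y : ZMod p) ^ 2)]
    push_cast
    rfl
  refine Finset.card_nbij' (fun xy : ℕ × ℕ => ((xy.1 : ZMod p), (xy.2 : ZMod p)))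
    (fun z : ZMod p × ZMod p => (z.1.val, z.2.val)) ?_ ?_ ?_ ?_
  · intro xy hxy
    simp only [Finset.coe_filter, Finset.mem_product, Finset.mem_range, Set.mem_ofPred_eq] at hxy
    simp only [Finset.coe_filter, Finset.mem_univ, true_and, Set.mem_ofPred_eq]
    exact (key _ _).1 hxy.2
  · intro z hz
    simp only [Finset.coe_filter, Finset.mem_univ, true_and, Set.mem_ofPred_eq] at hz
    simp only [Finset.coe_filter, Finset.mem_product, Finset.mem_range, Set.mem_ofPred_eq]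
    refine ⟨⟨ZMod.val_lt _, ZMod.val_lt _⟩, (key _ _).2 ?_⟩
    rw [ZMod.natCast_zmod_val, ZMod.natCast_zmod_val]
    exact hz
  · intro xy hxy
    simp only [Finset.coe_filter, Finset.mem_product, Finset.mem_range, Set.mem_ofPred_eq] at hxy
    exact Prod.ext (ZMod.val_cast_of_lt hxy.1.1) (ZMod.val_cast_of_lt hxy.1.2)
  · intro z _
    exact Prod.ext (ZMod.natCast_zmod_val _) (ZMod.natCast_zmod_val _)

/-- The data of the newform of `E : y² = x³ + a x + b`. -/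
structure NF (a b : ℤ) (N : ℕ) (f : CuspForm (Gamma0 N : Subgroup (GL (Fin 2) ℝ)) 2) (w : ℝ) : Prop where
  one : (qExpansion 1 f).coeff 1 = 1
  real : ∀ n, ((qExpansion 1 f).coeff n).im = 0
  mul : ∀ m n : ℕ, Nat.Coprime m n →
    (qExpansion 1 f).coeff (m * n) = (qExpansion 1 f).coeff m * (qExpansion 1 f).coeff n
  pow : ∀ p j : ℕ, p.Prime → (qExpansion 1 f).coeff (p ^ (j + 2)) =
    (qExpansion 1 f).coeff p * (qExpansion 1 f).coeff (p ^ (j + 1)) -
      (if p ∣ N then 0 else (p : ℂ) * (qExpansion 1 f).coeff (p ^ j))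
  sign : w = 1 ∨ w = -1
  fricke : ∀ τ τ' : ℍ, (τ' : ℂ) * ((N : ℂ) * (τ : ℂ)) = -1 →
    f τ' = -(w : ℂ) * (N : ℂ) * (τ : ℂ) ^ 2 * f τ
  points : ∀ p : ℕ, p.Prime → ¬ (p : ℤ) ∣ 2 * (4 * a ^ 3 + 27 * b ^ 2) → (qExpansion 1 f).coeff p =
    (((p : ℤ) - (((Finset.range p ×ˢ Finset.range p).filter
      (fun xy : ℕ × ℕ => (p : ℤ) ∣ (xy.2 : ℤ) ^ 2 -
        ((xy.1 : ℤ) ^ 3 + a * (xy.1 : ℤ) + b))).card : ℤ) : ℤ) : ℂ)
  good : ∀ p : ℕ, p.Prime → ¬ p ∣ N → ‖(qExpansion 1 f).coeff p‖ ≤ 2 * Real.sqrt p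
  bad : ∀ p : ℕ, p.Prime → p ∣ N → (qExpansion 1 f).coeff p = 0 ∨ (qExpansion 1 f).coeff p = 1 ∨
    (qExpansion 1 f).coeff p = -1

/-- The quadratic twists of `X₀(11)` and of `X₀(14)` have newforms. -/
theorem newforms {a b : ℤ} (h : Fam a b) :
    ∃ (N : ℕ) (_ : NeZero N) (f : CuspForm (Gamma0 N : Subgroup (GL (Fin 2) ℝ)) 2) (w : ℝ), NF a b N f w := by
  obtain ⟨N, f, hf, hb⟩ := forms h
  obtain ⟨w, hw, hfr⟩ := hf.fricke
  refine ⟨N, ⟨hf.pos.ne'⟩, f, w, hf.one, hf.real, hf.mul, hf.pow, hw, hfr, ?_, hf.good, hb⟩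
  intro p hp hd
  rw [ap_eq a b hp]
  exact (hf.points p hp hd).2

end Pool.Agent.K6.H88.MD
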